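import Pool.Agent.P8H18.RR.Stm3
import Pool.Agent.P8H37.RR.BijGap

/-!
# Project DS (helper18), package GAP2 (helper45): adaptation of helper37's `gap`
-/

set_option autoImplicit false

namespace Pool.Agent.P8H45.DS

open Finset Pool.Agent.P8H18.RR Pool.Agent.P8H18.DS Pool.Agent.P8H37.RR

theorem gap2 : S_GAP2 := by
  intro i0 L G T H Q U h hH hQ hU hh h10 hi0 hi1 hcard hG hT a q hq hqQ hco happ
  obtain ⟨k, hk, hwin⟩ := window i0 G U
  set r := i0 + k * (G + 1) with hr
  have hr1 : k * (G + 1) ≤ U.card * (G + 1) := Nat.mul_le_mul_right _ hk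
  have hr2 : r + T + 2 + (G + 1) ≤ 2 * L := by
    have : (U.card + 1) * (G + 1) = U.card * (G + 1) + (G + 1) := by ring
    omega
  -- the splitting
  set A : ℤ := ∑ i ∈ U.filter (fun i => i ≤ r), h i * 10 ^ (r - i) with hA
  set R : ℝ := ∑ i ∈ U.filter (fun i => ¬ i ≤ r), (h i : ℝ) / 10 ^ (i + 1) with hR
  have hsplit : fr U h = A / 10 ^ (r + 1) + R := by
    unfold fr
    rw [← sum_filter_add_sum_filter_not U (fun i => i ≤ r)]
    congr 1
    rw [hA, Int.cast_sum, sum_div]
    refine sum_congr rfl fun i hi => ?_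
    rw [mem_filter] at hi
    push_cast
    have e : (10 : ℝ) ^ (r + 1) = 10 ^ (r - i) * 10 ^ (i + 1) := by
      rw [← pow_add]
      congr 1
      omega
    rw [e]
    have h1 : (10 : ℝ) ^ (r - i) ≠ 0 := by positivity
    have h2 : (10 : ℝ) ^ (i + 1) ≠ 0 := by positivity
    field_simp
  have hRle : |R| ≤ H / (9 * 10 ^ (r + G + 1)) := by
    refine tail _ _ _ _ ?_ ?_
    · intro i hi
      rw [mem_filter] at hi
      have h1 := hwin i hi.1
      omega
    · intro i hi
      exact hh i (mem_filter.1 hi).1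
  have hqpos : (0 : ℝ) < q := by exact_mod_cast hq
  have hQpos : (0 : ℝ) < Q := by exact_mod_cast hQ
  have hqQ' : (q : ℝ) ≤ Q := by exact_mod_cast hqQ
  have h10r : (0 : ℝ) < 10 ^ (r + 1) := by positivity
  -- closeness
  have hclose : |(A : ℝ) / 10 ^ (r + 1) - a / q| ≤ H / (9 * 10 ^ (r + G + 1)) + Q / 10 ^ (2 * L + 1) := by
    have e : (A : ℝ) / 10 ^ (r + 1) - a / q = (fr U h - a / q) - R := by
      rw [hsplit]
      ring
    rw [e]
    refine (abs_sub _ _).trans ?_
    linarith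
  have hsmall : |(A : ℝ) * q - a * 10 ^ (r + 1)| < 1 := by
    have e : (A : ℝ) * q - a * 10 ^ (r + 1) = ((A : ℝ) / 10 ^ (r + 1) - a / q) * (q * 10 ^ (r + 1)) := by
      field_simp
    rw [e, abs_mul, abs_of_pos (show (0 : ℝ) < q * 10 ^ (r + 1) by positivity)]
    have h1 : |(A : ℝ) / 10 ^ (r + 1) - a / q| * (q * 10 ^ (r + 1)) ≤
        (H / (9 * 10 ^ (r + G + 1)) + Q / 10 ^ (2 * L + 1)) * (Q * 10 ^ (r + 1)) := by
      gcongr
    refine lt_of_le_of_lt h1 ?_
    have hG' : (4 : ℝ) * H * Q ≤ 10 ^ G := by exact_mod_cast hG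
    have hT' : (4 : ℝ) * Q ^ 2 ≤ 10 ^ T := by exact_mod_cast hT
    have e1 : (H : ℝ) / (9 * 10 ^ (r + G + 1)) * (Q * 10 ^ (r + 1)) = H * Q / (9 * 10 ^ G) := by
      rw [show r + G + 1 = G + (r + 1) by ring, pow_add (10 : ℝ) G (r + 1)]
      field_simp
    have e2 : (Q : ℝ) / 10 ^ (2 * L + 1) * (Q * 10 ^ (r + 1)) = Q ^ 2 / 10 ^ (2 * L - r) := by
      have e3 : (10 : ℝ) ^ (2 * L + 1) = 10 ^ (2 * L - r) * 10 ^ (r + 1) := by
        rw [← pow_add]
        congr 1
        omega
      rw [e3]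
      field_simp
    rw [add_mul, e1, e2]
    have h2 : (H : ℝ) * Q / (9 * 10 ^ G) ≤ 1 / 36 := by
      rw [div_le_div_iff₀ (by positivity) (by norm_num)]
      linarith
    have h3 : (Q : ℝ) ^ 2 / 10 ^ (2 * L - r) ≤ 1 / 4 := by
      have h4 : (10 : ℝ) ^ T ≤ 10 ^ (2 * L - r) := pow_le_pow_right₀ (by norm_num) (by omega)
      rw [div_le_div_iff₀ (by positivity) (by norm_num)]
      linarith
    linarith
  have hint : A * q = a * 10 ^ (r + 1) := by
    have h1 : |((A * q - a * 10 ^ (r + 1) : ℤ) : ℝ)| < 1 := by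
      push_cast
      exact hsmall
    have h2 : |A * q - a * 10 ^ (r + 1)| < 1 := by exact_mod_cast h1
    rw [Int.abs_lt_one_iff] at h2
    linarith
  constructor
  · have h1 : (q : ℤ) ∣ 10 ^ (r + 1) := by
      have h2 : (q : ℤ) ∣ a * 10 ^ (r + 1) := ⟨A, by rw [← hint]; ring⟩
      exact hco.symm.dvd_of_dvd_mul_left h2
    have h3 : (q : ℤ) ∣ ((10 ^ (2 * L + 1) : ℕ) : ℤ) := by
      push_cast
      exact h1.trans (pow_dvd_pow _ (by omega))
    exact_mod_cast h3
  · rintro ⟨t, ht⟩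
    have hA' : A = a * t * 10 ^ r := by
      have h1 : A * (q * t) = a * t * 10 ^ (r + 1) := by
        rw [← mul_assoc, hint]
        ring
      have h2 : (q : ℤ) * t = 10 := by exact_mod_cast ht.symm
      rw [h2, pow_succ] at h1
      have h3 : (10 : ℤ) * A = 10 * (a * t * 10 ^ r) := by linarith
      exact mul_left_cancel₀ (by norm_num) h3
    have hne : (U.filter (fun i => i ≤ r)).Nonempty := ⟨i0, mem_filter.2 ⟨hi0, by omega⟩⟩
    set s := (U.filter (fun i => i ≤ r)).max' hne with hs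
    have hsU := (U.filter (fun i => i ≤ r)).max'_mem hne
    rw [← hs, mem_filter] at hsU
    have hs1 : i0 ≤ s := le_max' _ _ (mem_filter.2 ⟨hi0, by omega⟩)
    have hdiv : (10 : ℤ) ∣ h s := by
      have h1 : A = 10 ^ (r - s) * (h s + ∑ i ∈ (U.filter (fun i => i ≤ r)).erase s, h i * 10 ^ (s - i)) := by
        rw [hA, ← add_sum_erase _ _ (mem_filter.2 hsU), mul_add, mul_sum]
        congr 1
        · ring
        · refine sum_congr rfl fun i hi => ?_
          rw [mem_erase] at hi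
          have h2 : i ≤ s := le_max' _ _ hi.2
          have e : (10 : ℤ) ^ (r - i) = 10 ^ (r - s) * 10 ^ (s - i) := by
            rw [← pow_add]
            congr 1
            omega
          rw [e]
          ring
      have h2 : (10 : ℤ) ∣ ∑ i ∈ (U.filter (fun i => i ≤ r)).erase s, h i * 10 ^ (s - i) := by
        refine dvd_sum fun i hi => ?_
        rw [mem_erase] at hi
        have h3 : i ≤ s := le_max' _ _ hi.2
        have h4 : i ≠ s := hi.1
        exact (dvd_pow_self (10 : ℤ) (by omega)).mul_left _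
      have h5 : (10 : ℤ) ^ (r - s) * (h s + ∑ i ∈ (U.filter (fun i => i ≤ r)).erase s, h i * 10 ^ (s - i)) =
          10 ^ (r - s) * (a * t * 10 ^ s) := by
        rw [← h1, hA']
        have e : (10 : ℤ) ^ r = 10 ^ (r - s) * 10 ^ s := by
          rw [← pow_add]
          congr 1
          omega
        rw [e]
        ring
      have h6 := mul_left_cancel₀ (pow_ne_zero _ (by norm_num : (10 : ℤ) ≠ 0)) h5
      have h7 : (10 : ℤ) ∣ a * t * 10 ^ s := (dvd_pow_self (10 : ℤ) (by omega)).mul_left _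
      rw [← h6] at h7
      exact (dvd_add_left h2).1 h7
    exact h10 s hsU.1 (by omega) (by omega) hdiv

end Pool.Agent.P8H45.DS
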